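import Mathlib

set_option autoImplicit false
set_option maxHeartbeats 400000

open Filter Topology

namespace Pool.Agent.Results.MP_6d826c_an.NoCopy

/-- almost isometric embeddability -/
def Almost (M X : Type) [MetricSpace M] [NormedAddCommGroup X] : Prop :=
  ∀ e : ℝ, 0 < e → ∃ f : M → X, ∀ a b, dist a b ≤ ‖f a - f b‖ ∧ ‖f a - f b‖ ≤ (1 + e) * dist a b

/-- isometric embeddability -/
def Iso (M X : Type) [MetricSpace M] [NormedAddCommGroup X] : Prop :=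
  ∃ f : M → X, ∀ a b, ‖f a - f b‖ = dist a b

abbrev G : Type := WithLp 2 (ℂ × (ℝ × ℝ))

noncomputable def J (s : ℝ) : ℂ →ₗ[ℝ] G where
  toFun a := WithLp.toLp 2 (a, s • (a.re, a.im))
  map_add' a b := by rw [← WithLp.toLp_add]; simp [mul_add]
  map_smul' c a := by rw [← WithLp.toLp_smul]; simp [mul_left_comm]

theorem Jf (s : ℝ) (a : ℂ) : (J s a).fst = a := rfl

noncomputable def q (a : ℂ) : ℝ := max |a.re| |a.im|

theorem nJ (s : ℝ) (a : ℂ) : ‖J s a‖ ^ 2 = ‖a‖ ^ 2 + s ^ 2 * q a ^ 2 := by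
  rw [WithLp.prod_norm_sq_eq_of_L2]
  show ‖a‖ ^ 2 + ‖s • (a.re, a.im)‖ ^ 2 = _
  rw [norm_smul, mul_pow, Real.norm_eq_abs, sq_abs]; rfl

theorem q0 (a : ℂ) : 0 ≤ q a := le_max_of_le_left (abs_nonneg _)
theorem q1 (a : ℂ) : q a ^ 2 ≤ ‖a‖ ^ 2 :=
  pow_le_pow_left₀ (q0 a) (max_le a.abs_re_le_norm a.abs_im_le_norm) 2
theorem q2 (a : ℂ) : ‖a‖ ^ 2 ≤ 2 * q a ^ 2 := by
  have := pow_le_pow_left₀ (abs_nonneg _) (le_max_left |a.re| |a.im|) 2
  have := pow_le_pow_left₀ (abs_nonneg _) (le_max_right |a.re| |a.im|) 2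
  rw [Complex.sq_norm, Complex.normSq_apply, q]; rw [sq_abs] at *; linarith
theorem q3 (a b : ℂ) : q (a + b) ≤ q a + q b := norm_add_le (a.re, a.im) (b.re, b.im)

theorem uc (s : ℝ) (h : s ^ 2 ≤ 1) (a b : ℂ) :
    ‖J s a + J s b‖ ^ 2 + ‖J s a - J s b‖ ^ 2 / 2 ≤ 2 * ‖J s a‖ ^ 2 + 2 * ‖J s b‖ ^ 2 := by
  rw [← map_add, ← map_sub, nJ, nJ, nJ, nJ]
  have p := parallelogram_law_with_norm ℝ a b
  have h1 : q (a + b) ^ 2 ≤ 2 * q a ^ 2 + 2 * q b ^ 2 := by
    nlinarith [pow_le_pow_left₀ (q0 _) (q3 a b) 2, sq_nonneg (q a - q b)]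
  nlinarith [mul_le_mul_of_nonneg_left h1 (sq_nonneg s), q1 (a - b),
    mul_le_mul_of_nonneg_right h (sq_nonneg (q (a - b)))]

theorem quad (s : ℝ) (a b c d : ℂ) : (1 - s ^ 2) *
    (‖a - b‖ ^ 2 + ‖b - c‖ ^ 2 + ‖c - d‖ ^ 2 + ‖d - a‖ ^ 2) ≤
    4 * (‖J s a - J s b‖ ^ 2 + ‖J s b - J s c‖ ^ 2 + ‖J s c - J s d‖ ^ 2 + ‖J s d - J s a‖ ^ 2) -
      3 * (‖J s a - J s c‖ ^ 2 + ‖J s b - J s d‖ ^ 2) := by
  simp only [← map_sub, nJ]
  have e : ‖a - c‖ ^ 2 + ‖b - d‖ ^ 2 ≤ ‖a - b‖ ^ 2 + ‖b - c‖ ^ 2 + ‖c - d‖ ^ 2 + ‖d - a‖ ^ 2 := by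
    simp only [Complex.sq_norm, Complex.normSq_apply, Complex.sub_re, Complex.sub_im]
    nlinarith [sq_nonneg (a.re - b.re + c.re - d.re), sq_nonneg (a.im - b.im + c.im - d.im)]
  have t := sq_nonneg s
  nlinarith [mul_le_mul_of_nonneg_left (q1 (a - c)) t, mul_le_mul_of_nonneg_left (q1 (b - d)) t,
    mul_le_mul_of_nonneg_left (q2 (a - b)) t, mul_le_mul_of_nonneg_left (q2 (b - c)) t,
    mul_le_mul_of_nonneg_left (q2 (c - d)) t, mul_le_mul_of_nonneg_left (q2 (d - a)) t,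
    mul_le_mul_of_nonneg_left e t]

noncomputable def s (n : ℕ) : ℝ := (n + 1) / (n + 2)

theorem s0 (n : ℕ) : 0 < s n := by unfold s; positivity
theorem s1 (n : ℕ) : s n ^ 2 < 1 :=
  pow_lt_one₀ (s0 n).le (by unfold s; rw [div_lt_one (by positivity)]; linarith) two_ne_zero

abbrev E : Type := lp (fun _ : ℕ => G) 2

def X : Submodule ℝ E where
  carrier := {f | ∀ n, f n = J (s n) (f n).fst}
  add_mem' := fun {f g} hf hg n => by
    rw [lp.coeFn_add, Pi.add_apply, hf n, hg n, ← map_add, Jf]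
  zero_mem' := fun n => by simp
  smul_mem' := fun c f hf n => by
    rw [lp.coeFn_smul, Pi.smul_apply, hf n, ← map_smul, Jf]

theorem cl : IsClosed (X : Set E) := by
  show IsClosed {f : E | ∀ n, f n = J (s n) (f n).fst}
  rw [Set.ofPred_forall]
  refine isClosed_iInter fun n => ?_
  have c : Continuous fun f : E => f n := (lp.lipschitzWith_one_eval 2 n).continuous
  exact isClosed_eq c ((J (s n)).continuous_of_finiteDimensional.comp
    ((WithLp.continuous_fst 2 _ _).comp c))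

theorem hs (f : E) : HasSum (fun n => ‖f n‖ ^ 2) (‖f‖ ^ 2) := by
  simpa using lp.hasSum_norm (p := 2) (by norm_num) f

noncomputable def sg (n : ℕ) (a : ℂ) : X := ⟨lp.single 2 n (J (s n) a), fun m => by
  by_cases h : m = n
  · subst h; simp [Jf]
  · simp [lp.single_apply, h]⟩

theorem nsg (n : ℕ) (a b : ℂ) : ‖sg n a - sg n b‖ = ‖J (s n) (a - b)‖ := by
  show ‖lp.single (E := fun _ : ℕ => G) 2 n (J (s n) a) - lp.single 2 n (J (s n) b)‖ = _
  rw [← lp.single_sub, lp.norm_single (by norm_num), map_sub]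

def p : Fin 4 → ℂ := ![0, 1 + Complex.I, 2, 1 - Complex.I]

theorem result : ∃ (X : Type) (_ : NormedAddCommGroup X) (_ : NormedSpace ℝ X),
    CompleteSpace X ∧ UniformConvexSpace X ∧ ¬FiniteDimensional ℝ X ∧
      ∃ (M : Type) (_ : MetricSpace M), Finite M ∧ Almost M X ∧ ¬Iso M X := by
  refine ⟨X, inferInstance, inferInstance, cl.completeSpace_coe, ⟨fun e he => ⟨e ^ 2 / 8,
    by positivity, fun x hx y hy h => ?_⟩⟩, fun h => ?_, Set.range fun i => J 1 (p i),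
    inferInstance, (Set.finite_range _).to_subtype, fun e he => ?_, ?_⟩
  · have := hasSum_le (fun n => by
      have := uc (s n) (s1 n).le (x.1 n).fst (y.1 n).fst
      rwa [← x.2 n, ← y.2 n] at this) ((hs (x.1 + y.1)).add ((hs (x.1 - y.1)).div_const 2))
      (((hs x.1).mul_left 2).add ((hs y.1).mul_left 2))
    change ‖x + y‖ ^ 2 + ‖x - y‖ ^ 2 / 2 ≤ 2 * ‖x‖ ^ 2 + 2 * ‖y‖ ^ 2 at this
    rw [hx, hy] at this
    have := pow_le_pow_left₀ he.le h 2
    refine (abs_le_of_sq_le_sq' ?_ ?_).2 <;> nlinarith [sq_nonneg ‖x + y‖, sq_nonneg (e ^ 2)]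
  · refine Module.Finite.not_linearIndependent_of_infinite (R := ℝ) (fun n => sg n 1) ?_
    rw [linearIndependent_iff']
    intro t g h n hn
    let φ : X →ₗ[ℝ] ℂ :=
      { toFun := fun f => (f.1 n).fst, map_add' := fun _ _ => rfl, map_smul' := fun _ _ => rfl }
    have := congrArg φ h
    rw [map_sum, map_zero, Finset.sum_eq_single n] at this
    · simpa [φ, sg, Jf] using this
    · intro m _ hm; simp [φ, sg, lp.single_apply, hm.symm]
    · exact fun h => (h hn).elim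
  · obtain ⟨n, hn⟩ := exists_nat_gt (1 / e)
    refine ⟨fun a => sg n ((s n)⁻¹ • a.1.fst), ?_⟩
    rintro ⟨_, i, rfl⟩ ⟨_, j, rfl⟩
    have := s0 n
    rw [nsg, Subtype.dist_eq, dist_eq_norm, ← map_sub, ← smul_sub, map_smul, norm_smul, Jf, Jf,
      Real.norm_eq_abs, abs_of_pos (by positivity)]
    generalize p i - p j = z
    have a := nJ (s n) z; have b := nJ 1 z; have c := s1 n
    have u : s n * ‖J 1 z‖ ≤ ‖J (s n) z‖ := by
      refine (abs_le_of_sq_le_sq' ?_ (norm_nonneg _)).2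
      rw [mul_pow, a, b]; nlinarith [sq_nonneg ‖z‖]
    have v : ‖J (s n) z‖ ≤ ‖J 1 z‖ := by
      refine (abs_le_of_sq_le_sq' ?_ (norm_nonneg _)).2
      rw [a, b]; nlinarith [sq_nonneg (q z)]
    refine ⟨by rwa [le_inv_mul_iff₀ this], mul_le_mul ?_ v (norm_nonneg _) (by positivity)⟩
    rw [s, inv_div, div_le_iff₀ (by positivity)]
    rw [div_lt_iff₀ he] at hn; nlinarith
  · rintro ⟨f, hf⟩
    let g : Fin 4 → E := fun i => (f ⟨_, i, rfl⟩).1
    have d : ∀ i j, ‖g i - g j‖ ^ 2 = ‖p i - p j‖ ^ 2 + q (p i - p j) ^ 2 := fun i j => by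
      have := hf ⟨_, i, rfl⟩ ⟨_, j, rfl⟩
      rw [Subtype.dist_eq, dist_eq_norm, ← map_sub] at this
      change ‖g i - g j‖ = _ at this
      rw [this, nJ]; simp
    have H := (((((hs (g 0 - g 1)).add (hs (g 1 - g 2))).add (hs (g 2 - g 3))).add
      (hs (g 3 - g 0))).mul_left 4).sub (((hs (g 0 - g 2)).add (hs (g 1 - g 3))).mul_left 3)
    have d01 := d 0 1
    simp only [d] at H
    simp only [Complex.sq_norm, Complex.normSq_apply, q, p] at H d01
    have Q : ∀ n, _ := fun n => by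
      have := quad (s n) (g 0 n).fst (g 1 n).fst (g 2 n).fst (g 3 n).fst
      rw [← (f _).2 n, ← (f _).2 n, ← (f _).2 n, ← (f _).2 n] at this
      exact this
    have z : g 0 - g 1 = 0 := by
      refine lp.ext (funext fun n => ?_)
      have a := (Q n).trans (le_hasSum H n fun m _ => le_trans
        (mul_nonneg (sub_nonneg.2 (s1 m).le) (by positivity)) (Q m))
      have b : (g 0 n).fst = (g 1 n).fst := by
        by_contra hne
        have : 0 < ‖(g 0 n).fst - (g 1 n).fst‖ ^ 2 := by have := sub_ne_zero.2 hne; positivity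
        have := mul_pos (sub_pos.2 (s1 n)) (show 0 < ‖(g 0 n).fst - (g 1 n).fst‖ ^ 2 +
          ‖(g 1 n).fst - (g 2 n).fst‖ ^ 2 + ‖(g 2 n).fst - (g 3 n).fst‖ ^ 2 +
          ‖(g 3 n).fst - (g 0 n).fst‖ ^ 2 by positivity)
        refine (this.trans_le a).ne' ?_
        simp; norm_num
      show g 0 n - g 1 n = 0
      rw [(f _).2 n, b, ← (f _).2 n, sub_self]
    rw [z] at d01; simp at d01; norm_num at d01

end Pool.Agent.Results.MP_6d826c_an.NoCopy
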